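import Pool.Agent.Helper65.BR.PGoals

/-!
# Parallel machines with supersteps: final assembly
-/

namespace Pool.Agent.Helper48.BR

open Pool.Agent.Helper65.LinSpace Pool.Agent.Helper78.Mpc Pool.Agent.Helper28.Ram Finset Filter
open Pool.Agent.Helper65.BR
open Pool.Agent.Helper28.Long (ZL)

/-- The number of a short word is small. -/
theorem num_lt {w : List Bool} {S : ℕ} (h : w.length ≤ S) : num w < 2 ^ (S + 1) := by
  have h1 : Nat.log 2 (num w) = w.length := Pool.Agent.Helper65.LinSpace.log_num w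
  have h2 : num w < 2 ^ (Nat.log 2 (num w) + 1) := Nat.lt_pow_succ_log_self (by norm_num) _
  rw [h1] at h2
  exact h2.trans_le (Nat.pow_le_pow_right (by norm_num) (by omega))

theorem accN_one : accN 1 = 0 := by
  have h1 := accN_le 1
  have h2 : ¬ accN 1 = 1 := fun h3 => by
    have h4 := (accN_num []).1 (by simpa [num] using h3)
    simp at h4
  omega

/-- The assembly. -/
theorem pfin (hP : PPAR_stmt) (hC : PCODE_stmt) (hW : PWRD_stmt) (hA : PASY_stmt)
    (hS : SIZ_stmt) : PFIN_stmt := by
  intro s A C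
  obtain ⟨eI, eA, eR, eN, eO, c, hc⟩ := hC A
  obtain ⟨n₀, hn₀⟩ := eventually_atTop.1 (hS c)
  obtain ⟨n₁, hn₁⟩ := eventually_atTop.1 (hA C)
  obtain ⟨e, he⟩ : ∃ e, e = Nat.pair (Nat.pair eI eA) (Nat.pair eR (Nat.pair eN eO)) := ⟨_, rfl⟩
  refine ⟨e, n₀ + n₁, fun w y hw => ?_⟩
  have hlog : Nat.log 2 (num w) = w.length := Pool.Agent.Helper65.LinSpace.log_num w
  have hNP : NP (num w) = (w.length + 2) ^ 6 := by
    unfold NP
    rw [hlog]
  -- the parameters
  have pS : ∀ T p, (prp e (num w) (num y) T p).S = bT w.length T 0 := fun T p => by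
    show bT (Nat.log 2 (num w)) T 0 = _
    rw [hlog]
  have pH : ∀ T p, (prp e (num w) (num y) T p).H = bT w.length T 1 := fun T p => by
    show bT (Nat.log 2 (num w)) T 1 = _
    rw [hlog]
  have pZ : ∀ T p, (prp e (num w) (num y) T p).Z = bT w.length T 2 := fun T p => by
    show bT (Nat.log 2 (num w)) T 2 = _
    rw [hlog]
  have pR : ∀ T p, (prp e (num w) (num y) T p).R = dig (w.length + 2) T 3 := fun T p => by
    show dig (Nat.log 2 (num w) + 2) T 3 = _
    rw [hlog]
  have pΛ : ∀ T p, (prp e (num w) (num y) T p).Λ = LW w.length := fun T p => by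
    show LW (Nat.log 2 (num w)) = _
    rw [hlog]
  have pβ : ∀ T p, (prp e (num w) (num y) T p).β = 2 ^ (2 * ll w.length) := fun T p => by
    show 2 ^ (2 * ll (Nat.log 2 (num w))) = _
    rw [hlog]
  have pK : ∀ T p, (prp e (num w) (num y) T p).K =
      ifz (oP w.length T) 0 (dig (w.length + 2) T 4) := fun T p => by
    show ifz (oP (Nat.log 2 (num w)) T) 0 (dig (Nat.log 2 (num w) + 2) T 4) = _
    rw [hlog]
  have hcod : ∀ T p, CodP A (prp e (num w) (num y) T p) := by
    intro T p
    obtain ⟨h1, h2, h3⟩ := hn₀ w.length (by omega) (bT w.length T 0) (min_le_right _ _)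
      (bT w.length T 1) (min_le_right _ _) (bT w.length T 2) (min_le_right _ _)
    obtain ⟨h4, h5, h6⟩ := h3 (num w) hlog
    have hcomm : bT w.length T 0 + bT w.length T 1 + bT w.length T 2 =
        bT w.length T 0 + bT w.length T 2 + bT w.length T 1 := by ring
    refine hc _ ?_ ?_ ?_ ?_ ?_ ?_ ?_ ?_ ?_ ?_
    · show (Nat.unpair (Nat.unpair e).1).1 = eI
      rw [he]
      simp only [Nat.unpair_pair]
    · show (Nat.unpair (Nat.unpair e).1).2 = eA
      rw [he]
      simp only [Nat.unpair_pair]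
    · show (Nat.unpair (Nat.unpair e).2).1 = eR
      rw [he]
      simp only [Nat.unpair_pair]
    · show (Nat.unpair (Nat.unpair (Nat.unpair e).2).2).1 = eN
      rw [he]
      simp only [Nat.unpair_pair]
    · show (Nat.unpair (Nat.unpair (Nat.unpair e).2).2).2 = eO
      rw [he]
      simp only [Nat.unpair_pair]
    · rw [pS, pZ, pH, pΛ]
      omega
    · rw [pS, pZ, pH, pΛ, pβ]
      omega
    · rw [pS]
      exact h4
    · rw [pZ]
      exact h5
    · rw [pH]
      exact h6
  -- the simulation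
  have hsim : ∀ T p, s.sim (Nat.log 2 (num w)) (prp e (num w) (num y) T p).rt =
      (prp e (num w) (num y) T p).rt.T (prp e (num w) (num y) T p).K
        (prp e (num w) (num y) T p).rt.root := by
    intro T p
    obtain ⟨h1, h2, -⟩ := hP e (num w) (num y) T p
    exact s.eq _ _ h2 h1
  constructor
  · intro T _ hne
    unfold accP at hne
    obtain ⟨q, hq, h0⟩ := exists_ne_zero_of_sum_ne_zero hne
    rw [mem_range, hlog] at hq
    have hq1 : q ≠ 0 := by
      intro h
      apply h0
      rw [h, lt01, if_neg (lt_irrefl 0), zero_mul]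
    have h1 : accN (s.sim (Nat.log 2 (num w)) (prp e (num w) (num y) T q).rt) ≠ 0 := by
      intro h
      apply h0
      rw [h, mul_zero]
    rw [hsim] at h1
    obtain ⟨p, rfl⟩ := Pool.Agent.Helper65.LinSpace.exists_num (Nat.pos_of_ne_zero hq1)
    have hp : p.length ≤ (prp e (num w) (num y) T (num p)).Z := by
      rw [pZ, ← Pool.Agent.Helper65.LinSpace.log_num p]
      have := Nat.log_lt_of_lt_pow hq1 hq
      omega
    have hK : (prp e (num w) (num y) T (num p)).K ≠ 0 := by
      intro hK
      apply h1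
      rw [hK]
      exact accN_one
    obtain ⟨-, h2, h3⟩ := hP e (num w) (num y) T (num p)
    exact ⟨p, _, _, hW.snd A _ w y p (hcod T (num p)) rfl rfl rfl hp h2 (h3 hK) h1⟩
  · rintro ⟨p, R, k, s₁, m, a, hacc, hfit, b1, b2, b3⟩
    have hk : k ≠ 0 := by
      rintro rfl
      unfold PM.AcceptsAt PM.val at hacc
      simp at hacc
    obtain ⟨T, hT0, e0, e1, e2, e3, e4, e5⟩ := hn₁ w.length (by omega) k R s₁ m a b1 b2 b3
    refine ⟨T, by rw [hNP]; exact hT0, ?_⟩
    have hpr : num p < 2 ^ (bT (Nat.log 2 (num w)) T 2 + 1) := by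
      rw [hlog, e2]
      exact num_lt hfit.1
    have hKk : (prp e (num w) (num y) T (num p)).K = k := by
      rw [pK, e5, e4]
      rfl
    have hRR : (prp e (num w) (num y) T (num p)).R = R := by
      rw [pR, e3]
    obtain ⟨-, h2, h3⟩ := hP e (num w) (num y) T (num p)
    have hcmp := hW.cmp A (prp e (num w) (num y) T (num p)) w y p (hcod T (num p)) rfl rfl rfl h2
      (h3 (by rw [hKk]; exact hk))
      (by rw [hRR, hKk, pS, pZ, pH, e0, e1, e2]; exact hfit) (by rw [hRR, hKk]; exact hacc)
    unfold accP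
    intro h0
    rw [sum_eq_zero_iff] at h0
    have h1 := h0 (num p) (mem_range.2 hpr)
    rw [lt01, if_pos (Pool.Agent.Helper65.LinSpace.num_pos p), one_mul, hsim] at h1
    exact hcmp h1

end Pool.Agent.Helper48.BR
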